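import Mathlib
import Pool.Agent.W58.DS.Stm

/-! Project DS: vector valued functions with polynomial components (`S_VEC`). -/

set_option autoImplicit false

namespace Pool.Agent.W778.DS.Vec

open MeasureTheory Set Filter Topology Polynomial InnerProductSpace
open Pool.Agent.W58.DS

lemma vec_eq {ι : Type} [Fintype ι] [DecidableEq ι] (P : ι → ℂ[X]) :
    vec P = fun z => ∑ i, ((P i).eval z).re • (EuclideanSpace.single i (1 : ℝ)) := by
  funext z
  ext j
  simp [vec, Finset.sum_apply, Pi.single_apply]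

lemma harm_re (Q : ℂ[X]) (z : ℂ) : HarmonicAt (fun z => (Q.eval z).re) z := by
  have h : AnalyticAt ℂ (fun z => Q.eval z) z := Q.differentiable.analyticAt z
  exact h.harmonicAt_re

lemma harm_vec {ι : Type} [Fintype ι] [DecidableEq ι] (P : ι → ℂ[X]) (z : ℂ) :
    HarmonicAt (vec P) z := by
  rw [vec_eq]
  have key : ∀ s : Finset ι, HarmonicAt (fun z => ∑ i ∈ s, ((P i).eval z).re •
      (EuclideanSpace.single i (1 : ℝ) : EuclideanSpace ℝ ι)) z := by
    intro s
    induction s using Finset.induction_on with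
    | empty =>
      simp only [Finset.sum_empty]
      exact harmonicAt_const 0
    | insert a s ha ih =>
      simp only [Finset.sum_insert ha]
      refine HarmonicAt.add (f₁ := fun z => ((P a).eval z).re •
        (EuclideanSpace.single a (1 : ℝ) : EuclideanSpace ℝ ι)) ?_ ih
      exact (harm_re (P a) z).comp_CLM
        ((ContinuousLinearMap.id ℝ ℝ).smulRight (EuclideanSpace.single a (1 : ℝ)))
  exact key Finset.univ

lemma hasF {ι : Type} [Fintype ι] [DecidableEq ι] (P : ι → ℂ[X])
    (l : EuclideanSpace ℝ (Fin 2) ≃ₗᵢ[ℝ] ℂ) (x : EuclideanSpace ℝ (Fin 2)) :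
    HasFDerivAt (fun x => vec P (l x))
      (∑ i, (Complex.reCLM.comp ((((derivative (P i)).eval (l x)) •
        (l.toContinuousLinearEquiv : EuclideanSpace ℝ (Fin 2) →L[ℝ] ℂ)))).smulRight
          (EuclideanSpace.single i (1 : ℝ) : EuclideanSpace ℝ ι)) x := by
  rw [vec_eq]
  refine HasFDerivAt.fun_sum fun i _ => ?_
  refine HasFDerivAt.smul_const ?_ _
  have h1 : HasDerivAt (fun z => (P i).eval z) ((derivative (P i)).eval (l x)) (l x) :=
    (P i).hasDerivAt (l x)
  have h2 : HasFDerivAt (fun x => l x)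
      (l.toContinuousLinearEquiv : EuclideanSpace ℝ (Fin 2) →L[ℝ] ℂ) x :=
    l.toContinuousLinearEquiv.hasFDerivAt
  have h3 : HasFDerivAt (fun x => (P i).eval (l x)) (((derivative (P i)).eval (l x)) •
        (l.toContinuousLinearEquiv : EuclideanSpace ℝ (Fin 2) →L[ℝ] ℂ)) x := by
    have h4 := h1.hasFDerivAt.restrictScalars ℝ
    have h5 := HasFDerivAt.comp x h4 h2
    refine h5.congr_fderiv ?_
    ext v
    simp [mul_comm]
  exact Complex.reCLM.hasFDerivAt.comp x h3

lemma re_sq (l : EuclideanSpace ℝ (Fin 2) ≃ₗᵢ[ℝ] ℂ) (a : ℂ) :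
    ∑ j : Fin 2, ((a * l (EuclideanSpace.single j (1 : ℝ))).re) ^ 2 = ‖a‖ ^ 2 := by
  let b := (EuclideanSpace.basisFun (Fin 2) ℝ).map l
  have h := b.sum_sq_norm_inner_right ((starRingEnd ℂ) a)
  rw [RCLike.norm_conj] at h
  rw [← h]
  refine Finset.sum_congr rfl fun j _ => ?_
  have hb : b j = l (EuclideanSpace.single j (1 : ℝ)) := by
    simp [b, EuclideanSpace.basisFun_apply]
  rw [hb, Real.norm_eq_abs, sq_abs]
  congr 1
  rw [real_inner_comm, Complex.inner]
  simp [Complex.mul_re]
  ring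

theorem main : S_VEC := by
  intro ι _ _ P l
  refine ⟨harm_vec P, fun x => ?_, fun z => ?_⟩
  · have h := (hasF P l x).fderiv
    have h1 : ∀ j : Fin 2, ‖fderiv ℝ (fun x => vec P (l x)) x
        (EuclideanSpace.single j (1 : ℝ))‖ ^ 2 =
        ∑ i, (((derivative (P i)).eval (l x) * l (EuclideanSpace.single j (1 : ℝ))).re) ^ 2 := by
      intro j
      rw [h, EuclideanSpace.real_norm_sq_eq]
      refine Finset.sum_congr rfl fun i _ => ?_
      congr 1
      rw [sum_apply]
      simp [Finset.sum_apply, Pi.single_apply]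
    rw [Finset.sum_congr rfl fun j _ => h1 j, Finset.sum_comm]
    exact Finset.sum_congr rfl fun i _ => re_sq l _
  · rw [EuclideanSpace.real_norm_sq_eq]
    rfl

end Pool.Agent.W778.DS.Vec
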